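import Pool.Agent.MP_ca0a54_nt.H83.PQb

/-! Row PQ: the quadratic form over the shifted zeros is `O(T)`. -/

open Complex MeasureTheory Filter Topology

namespace Pool.Agent.MP_ca0a54_nt.H83

open Pool.Agent.MP_ca0a54_nt.L0 Pool.Agent.MP_ca0a54_nt.H24

theorem app_of (hA : Ar1Stmt) (hPF : PFStmt) {T ε t a δ C Z : ℝ} {U : Finset ℝ} {ϑ : ℂ}
    (hε : 0 < ε) (hε1 : ε ≤ 1 / 2) (hT : 0 < T) (ha : 0 < a) (haδ : a < δ) (haε : a ≤ ε / 16)
    (hU : Clean T δ U) (hC : 0 ≤ C) (hϑ : ‖ϑ‖ ≤ C) (hL1 : C ≤ Real.log T ^ 2)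
    (hL2 : C * (1 + Z) ≤ Real.log T ^ 3)
    (hZ : ∀ (b : ℕ → ℂ) (s : ℂ), (∀ n : ℕ, ‖b n‖ ≤ Real.exp (ε / 16 * Real.log n)) →
      s.re = 1 + ε / 8 → ‖LSeries b s‖ ≤ Z)
    (h : ∀ z : ℂ, -1 ≤ z.im → z.im ≤ -1 / 2 → ‖vp U a z - ϑ * Bq a z‖ ≤
      C / T * (1 + ‖Bq a z‖) * Real.exp ((z.re - t) ^ 2 / 4)) :
    App T ε t 1 U (fun u => -bt U a u) (fun u => u - a) fun n => ϑ * rc 0 (I * a) n := by
  obtain ⟨-, -, h3, h4, -, h6, -⟩ := hA
  have hb : ∀ n : ℕ, ‖rc 0 (I * a) n‖ ≤ Real.exp (ε / 16 * Real.log n) := by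
    intro n
    rcases Nat.eq_zero_or_pos n with rfl | hn
    · rw [(h4 _ _).1, norm_zero]
      positivity
    · have e1 : ‖rc 0 (I * a) n‖ ≤ ∑ k ∈ n.divisors, ‖rc 0 (I * a) k‖ :=
        Finset.single_le_sum (f := fun k => ‖rc 0 (I * a) k‖) (fun _ _ => norm_nonneg _)
          (Nat.mem_divisors_self n hn.ne')
      refine e1.trans ((h6 a n ha.le).trans (Real.exp_le_exp.2 ?_))
      exact mul_le_mul_of_nonneg_right haε (Real.log_natCast_nonneg n)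
  refine ⟨fun n => ?_, fun x => ?_⟩
  · rw [norm_mul]
    exact mul_le_mul (hϑ.trans hL1) (hb n) (norm_nonneg _) (by positivity)
  · set z : ℂ := x - (1 / 2 + ε / 8 : ℝ) * I with hz
    have him : z.im = -(1 / 2 + ε / 8) := by simp [hz]
    have hre : z.re = x := by simp [hz]
    have hs : (1 / 2 + I * z).re = 1 + ε / 8 := by
      simp [him]
      ring
    have e1 := (hPF U a ha fun u hu u' hu' hne => haδ.trans_le (hU.sep u hu u' hu' hne)).2.2 z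
      (by rw [him]; linarith)
    have e2 : LSeries (rc 0 (I * a)) (1 / 2 + I * z) = Bq a z := by
      rw [(h3 0 (I * a) (1 / 2 + I * z) (by rw [add_zero, hs]; linarith)
        (by rw [Complex.add_re, hs]; simp; linarith)).2, Bq, zf, zf, add_zero]
      congr 2
      ring
    have e3 : LSeries (fun n => ϑ * rc 0 (I * a) n) (1 / 2 + I * z) = ϑ * Bq a z := by
      rw [← e2]
      exact LSeries_smul (rc 0 (I * a)) ϑ _
    have e4 : ‖Bq a z‖ ≤ Z := e2 ▸ hZ _ _ hb hs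
    rw [← e1, e3]
    refine (h z (by rw [him]; linarith) (by rw [him]; linarith)).trans ?_
    rw [hre]
    refine mul_le_mul_of_nonneg_right ?_ (Real.exp_pos _).le
    rw [div_mul_eq_mul_div]
    refine div_le_div_of_nonneg_right (le_trans ?_ hL2) hT.le
    exact mul_le_mul_of_nonneg_left (by linarith) hC

theorem ev_err (A ε : ℝ) (hε : 0 < ε) :
    ∀ᶠ T : ℝ in atTop, A * T ^ (1 - ε / 2) * (1 + Real.log T) ≤ T := by
  have h1 : ∀ᶠ T : ℝ in atTop, |A| * (8 / ε) ≤ T ^ (ε / 4) :=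
    (tendsto_rpow_atTop (by positivity)).eventually_ge_atTop _
  filter_upwards [h1, eventually_ge_atTop (1 : ℝ), Real.tendsto_log_atTop.eventually_ge_atTop 1]
    with T h1 hT hL
  have hT0 : 0 < T := by linarith
  have h2 := Real.log_le_rpow_div hT0.le (ε := ε / 4) (by positivity)
  have h3 : 1 + Real.log T ≤ 8 / ε * T ^ (ε / 4) := by
    have : 8 / ε * T ^ (ε / 4) = 2 * (T ^ (ε / 4) / (ε / 4)) := by field_simp; ring
    linarith
  have h4 : T ^ (ε / 4) * T ^ (1 - ε / 2) * T ^ (ε / 4) = T := by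
    rw [← Real.rpow_add hT0, ← Real.rpow_add hT0]
    have : ε / 4 + (1 - ε / 2) + ε / 4 = 1 := by ring
    rw [this, Real.rpow_one]
  calc A * T ^ (1 - ε / 2) * (1 + Real.log T) ≤ |A| * T ^ (1 - ε / 2) * (8 / ε * T ^ (ε / 4)) :=
        mul_le_mul (mul_le_mul_of_nonneg_right (le_abs_self A) (by positivity)) h3 (by linarith)
          (by positivity)
    _ = |A| * (8 / ε) * T ^ (1 - ε / 2) * T ^ (ε / 4) := by ring
    _ ≤ T ^ (ε / 4) * T ^ (1 - ε / 2) * T ^ (ε / 4) := by gcongr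
    _ = T := h4

theorem floors {T ε : ℝ} (hT : 1 ≤ T) (hε : 0 < ε) (hε1 : ε ≤ 1 / 2) (hL : 4 ≤ ε * Real.log T) :
    1 ≤ ⌊T ^ (1 - ε)⌋₊ ∧ (⌊T ^ (1 - ε)⌋₊ : ℝ) ≤ T ^ (1 - ε) ∧
    Real.log ⌊T ^ (1 - ε)⌋₊ + ε * Real.log T / 4 ≤ Real.log ⌊T ^ (1 - ε / 2)⌋₊ ∧
    (⌊T ^ (1 - ε / 2)⌋₊ : ℝ) ≤ T ^ (1 - ε / 2) ∧ (⌊T ^ (1 - ε / 2)⌋₊ : ℝ) ≤ T ∧
    ⌊T ^ (1 - ε)⌋₊ ≤ ⌊T ^ (1 - ε / 2)⌋₊ ∧ Real.log ⌊T ^ (1 - ε / 2)⌋₊ ≤ Real.log T := by
  have hT0 : 0 < T := by linarith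
  have a1 : 1 ≤ T ^ (1 - ε) := Real.one_le_rpow hT (by linarith)
  have a2 : 1 ≤ T ^ (1 - ε / 2) := Real.one_le_rpow hT (by linarith)
  have b1 : 1 ≤ ⌊T ^ (1 - ε)⌋₊ := Nat.le_floor (by simpa using a1)
  have b2 : 1 ≤ ⌊T ^ (1 - ε / 2)⌋₊ := Nat.le_floor (by simpa using a2)
  have b1' : (1 : ℝ) ≤ ⌊T ^ (1 - ε)⌋₊ := by exact_mod_cast b1
  have b2' : (1 : ℝ) ≤ ⌊T ^ (1 - ε / 2)⌋₊ := by exact_mod_cast b2
  have c1 : (⌊T ^ (1 - ε)⌋₊ : ℝ) ≤ T ^ (1 - ε) := Nat.floor_le (by linarith)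
  have c2 : (⌊T ^ (1 - ε / 2)⌋₊ : ℝ) ≤ T ^ (1 - ε / 2) := Nat.floor_le (by linarith)
  have c3 : T ^ (1 - ε / 2) ≤ T := by
    conv_rhs => rw [← Real.rpow_one T]
    exact Real.rpow_le_rpow_of_exponent_le hT (by linarith)
  refine ⟨b1, c1, ?_, c2, c2.trans c3,
    Nat.floor_le_floor (Real.rpow_le_rpow_of_exponent_le hT (by linarith)),
    Real.log_le_log (by linarith) (c2.trans c3)⟩
  have d1 : Real.log ⌊T ^ (1 - ε)⌋₊ ≤ (1 - ε) * Real.log T := by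
    rw [← Real.log_rpow hT0]
    exact Real.log_le_log (by linarith) c1
  have d2 : T ^ (1 - ε / 2) ≤ 2 * ⌊T ^ (1 - ε / 2)⌋₊ := by
    have := Nat.lt_floor_add_one (T ^ (1 - ε / 2))
    linarith
  have d3 : (1 - ε / 2) * Real.log T ≤ Real.log 2 + Real.log ⌊T ^ (1 - ε / 2)⌋₊ := by
    rw [← Real.log_rpow hT0, ← Real.log_mul (by norm_num) (by linarith)]
    exact Real.log_le_log (by linarith) d2
  have d4 : Real.log 2 ≤ 1 := by linarith [Real.log_two_lt_d9]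
  nlinarith

theorem pq : MvtStmt → LFStmt → PFStmt → LineStmt → QidStmt → Ar1Stmt → Ar2Stmt → S1Stmt →
    PQStmt := by
  rintro ⟨K, hK, hM⟩ hLF hPF hLine hQ hA1 ⟨C, hC, hB1, -, hB3, -⟩ ⟨CS, hCS, hS⟩ η hη
  obtain ⟨C₀, hC₀, hLF⟩ := hLF η hη
  obtain ⟨C', hC', hLine⟩ := hLine C₀ hC₀
  refine ⟨C' * (2 * CS + 6 + C'), by nlinarith, fun Y ε ab hP => ?_⟩
  have hε := hP.e0
  have hY := hP.hY
  have hε1 : ε ≤ 1 / 2 := by nlinarith [hP.e1]
  have hab4 : ab ≤ 4 := hP.a1.trans Real.pi_le_four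
  have hab3 := hP.a0
  obtain ⟨Z, hZ0, hZ⟩ := lser_bd hε
  filter_upwards [hLF, hLine, hQ ε hε hε1, hS Y ε ab hP, ev_err (K * C * C) ε hε,
    eventually_ge_atTop (1 : ℝ), eventually_ge_atTop (5 / η),
    Real.tendsto_log_atTop.eventually_ge_atTop 1,
    Real.tendsto_log_atTop.eventually_ge_atTop (64 / ε),
    Real.tendsto_log_atTop.eventually_ge_atTop (C' * (1 + Z)),
    Real.tendsto_log_atTop.eventually_ge_atTop (C' ^ 2 * (C * (C * Y)))]
    with T hLF hLine hQ hS hE hT hηT hL1 hL2 hL3 hL4 δ U hδ hU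
  have hT0 : 0 < T := by linarith
  rcases lt_or_ge (1 / 2 : ℝ) η with hη1 | hη1
  · rw [Finset.filter_false_of_mem (fun u _ h => by nlinarith [h.1, h.2]), Finset.sum_empty]
    positivity
  unfold RR
  set L := Real.log T with hL
  have hL0 : 0 < L := by linarith
  rw [div_le_iff₀ hε] at hL2
  rw [div_le_iff₀ hη] at hηT
  obtain ⟨n1, n2, n3, n4, n5, n6, n7⟩ := floors hT hε hε1 (by nlinarith)
  set N := ⌊T ^ (1 - ε)⌋₊ with hN
  set N₂ := ⌊T ^ (1 - ε / 2)⌋₊ with hN₂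
  set a := ab / L with ha
  set r := rc (Y / L : ℝ) 0 with hr
  set c := cv (rc 0 (I * a)) (cut r N) with hc
  have ha0 : 0 < a := by positivity
  have ha1 : 1 / L ≤ a := div_le_div_of_nonneg_right (by linarith) hL0.le
  have ha4 : a ≤ 4 / L := div_le_div_of_nonneg_right hab4 hL0.le
  have ha4' : a ≤ 4 := ha4.trans (div_le_self (by norm_num) hL1)
  have haε : a ≤ ε / 16 := by
    refine ha4.trans ?_
    rw [div_le_div_iff₀ hL0 (by norm_num)]
    nlinarith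
  have hy : 0 ≤ Y / L := by positivity
  have hφ := fun n => hA1.2.2.2.2.1 (Y / L) n hy
  have hr1 : ∀ n, ‖r n‖ ≤ 1 := fun n => (hφ n).1.trans (hφ n).2.1
  have nL : Real.log N ≤ L := by nlinarith [n3, n7]
  obtain ⟨hc1, hc2⟩ := hB3 L ab N N₂ r hL1 (by linarith) hP.a1 n7 hr1
  have hr2 : ∑ n ∈ Finset.Icc 1 N, ‖r n‖ ^ 2 / n ≤ C * Y := by
    refine le_trans (Finset.sum_le_sum fun n _ => ?_) (hB1 L Y N hL1 (by linarith) nL)
    refine div_le_div_of_nonneg_right ?_ (Nat.cast_nonneg n)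
    have := hr1 n
    have h2 := (hφ n).1
    nlinarith [norm_nonneg (r n)]
  have hc3 : ∑ n ∈ Finset.Icc 1 N₂, ‖c n‖ ^ 2 / n ≤ C * (C * Y) := by
    have := hc2 (C * Y) (L + 1) (fun x _ => le_trans (Finset.sum_le_sum_of_subset_of_nonneg
      (Finset.filter_subset _ _) fun _ _ _ => by positivity) hr2) (1 / 2) (by norm_num)
    rwa [win, Finset.filter_true_of_mem] at this
    intro n hn
    rw [Finset.mem_Icc] at hn
    have h1 : (1 : ℝ) ≤ n := by exact_mod_cast hn.1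
    have h2 : (n : ℝ) ≤ N₂ := by exact_mod_cast hn.2
    refine ⟨by linarith, ?_⟩
    rw [Real.exp_add, hL, Real.exp_log hT0]
    nlinarith [Real.exp_one_gt_d9]
  set e : ℂ := exp (-I * (ab / 2 : ℝ)) with he
  set P : ℝ → ℂ := fun s => dp c N₂ s with hPdef
  set R : ℝ → ℂ := fun s => dp r N s with hRdef
  have hPc : Continuous P := ds_cont _ _
  have hRc : Continuous R := ds_cont _ _
  have hPb : ∀ s, ‖P s‖ ≤ _ := ds_bd c (Finset.Icc 1 N₂)
  have hRb : ∀ s, ‖R s‖ ≤ _ := ds_bd r (Finset.Icc 1 N)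
  have hsep : ∀ u ∈ U, ∀ u' ∈ U, u ≠ u' → a < |u - u'| :=
    fun u hu u' hu' hne => hδ.trans_le (hU.sep u hu u' hu' hne)
  have hw : ∀ u ∈ U, 0 ≤ bt U a u * ‖dp r N (u - a : ℝ)‖ ^ 2 := fun u hu =>
    mul_nonneg ((hPF U a ha0 hsep).1 u hu).le (by positivity)
  set Q : ℝ → ℝ := fun t => ∑ u ∈ U, bt U a u * ‖dp r N (u - a : ℝ)‖ ^ 2 *
    Real.exp (-(u - a - t) ^ 2) with hQdef
  have hQ0 : ∀ t, 0 ≤ Q t := fun t =>
    Finset.sum_nonneg fun u hu => mul_nonneg (hw u hu) (Real.exp_pos _).le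
  have hQc : Continuous Q := by
    rw [hQdef]
    fun_prop
  have ht : (1 + η) * T ≤ (2 - η) * T := by nlinarith
  set G : ℝ → ℝ := fun t => ∫ x : ℝ, Hf e (C' ^ 2 / L) P R (t + x) * Real.exp (-x ^ 2) with hG
  have hpt : ∀ t ∈ Set.Icc ((1 + η) * T) ((2 - η) * T), 3 * Q t ≤ C' * (G t + C') := by
    intro t htm
    obtain ⟨h, hh⟩ := hLF δ U (ha1.trans hδ.le) hU t htm.1 htm.2
    obtain ⟨⟨ϑ, t1, t2, t3, t4, -⟩, -⟩ := hLine a δ t U h ha1 ha4 hδ hU hh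
    have hZ1 : C' ≤ C' * (1 + Z) := le_mul_of_one_le_right (by linarith) (by linarith)
    have hLL : L ≤ L ^ 2 := by nlinarith
    have hLLL : L ≤ L ^ 3 := by nlinarith
    have happ := app_of hA1 hPF hε hε1 hT0 ha0 hδ haε hU (by linarith) t2
      (by linarith) (hL3.trans hLLL) hZ t4
    have hq := hQ N N₂ n1 n2 n3 n5 t 1 U _ _ _ r hr1 happ
    have e1 : a * L / 2 = ab / 2 := by
      rw [ha]
      field_simp
    rw [e1] at t3
    simp only [cv_smul, dp_smul, neg_mul, Finset.sum_neg_distrib, mul_neg] at hq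
    have hτ : T ^ (-(ε / 2)) ≤ 1 := Real.rpow_le_one_of_one_le_of_nonpos hT (by linarith)
    have := pt_bound (Q := Real.pi * Q t) (t := t) hPc hRc hPb hRb hC' hL0 t1 t2 t3
      (mul_nonneg Real.pi_pos.le (hQ0 t)) zero_le_one (hq.trans hτ)
    rw [mul_one] at this
    nlinarith [Real.pi_gt_three, hQ0 t]
  have hκ0 : 0 ≤ C' ^ 2 / L := by positivity
  have hCY : 1 ≤ C * (C * Y) := by nlinarith [mul_le_mul hC hY (by norm_num) (by linarith : 0 ≤ C)]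
  have hκ1 : C' ^ 2 / L * (C * (C * Y)) ≤ 1 := by
    rw [div_mul_eq_mul_div, div_le_one hL0]
    exact hL4
  have hκ2 : C' ^ 2 / L ≤ 1 := (le_mul_of_one_le_right hκ0 hCY).trans hκ1
  have hE' : K * C * C * N₂ * (1 + Real.log N₂) ≤ T := by
    refine le_trans ?_ hE
    have : 0 ≤ Real.log N₂ := Real.log_natCast_nonneg _
    gcongr
  have hsub : Finset.Icc 1 N ⊆ Finset.Icc 1 N₂ := Finset.Icc_subset_Icc_right n6
  have hcb : ∀ n ∈ Finset.Icc 1 N₂, ‖c n‖ ≤ C := fun n hn => hc1 n (Finset.mem_Icc.1 hn).2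
  have hrb : ∀ n ∈ Finset.Icc 1 N, ‖r n‖ ≤ C := fun n _ => (hr1 n).trans hC
  have hC0 : 0 ≤ C := by linarith
  have hmean : ∀ x : ℝ, ∫ s in ((1 + η) * T + x)..((2 - η) * T + x), Hf e (C' ^ 2 / L) P R s ≤
      T * (CS + 3) := by
    intro x
    have m1 := (hM N₂ c r _ _ C C ((1 + η) * T + x) ((2 - η) * T + x) subset_rfl hsub hC0 hC0
      hcb hrb).trans hE'
    have m2 := (hM N₂ c c _ _ C C ((1 + η) * T + x) ((2 - η) * T + x) subset_rfl subset_rfl hC0 hC0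
      hcb hcb).trans hE'
    have m3 := (hM N₂ r r _ _ C C ((1 + η) * T + x) ((2 - η) * T + x) hsub hsub hC0 hC0
      hrb hrb).trans hE'
    have he1 : ‖e‖ ≤ 1 := by
      rw [he, Complex.norm_exp]
      simp
    have := Hf_mean (e := e) (κ := C' ^ 2 / L) (CS := CS) (m := C * (C * Y)) (T := T) hPc hRc he1
      hκ0 (by linarith) (by nlinarith) (by linarith) (by linarith) m1 m2 m3 ?_
      (by rw [sum_sq_re]; exact hc3)
      (by rw [sum_sq_re]; exact hr2.trans (le_mul_of_one_le_left (by positivity) hC))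
    · have h1 : C' ^ 2 / L * (T * (C * (C * Y)) + T) =
          T * (C' ^ 2 / L * (C * (C * Y))) + T * (C' ^ 2 / L) := by ring
      have h2 := mul_le_mul_of_nonneg_left hκ1 hT0.le
      have h3 := mul_le_mul_of_nonneg_left hκ2 hT0.le
      linarith
    · rw [Finset.inter_eq_right.2 hsub]
      refine le_trans (le_of_eq ?_) hS
      congr 3
      refine Finset.sum_congr rfl fun n hn => ?_
      rw [hc, cv_cut _ _ (Finset.mem_Icc.1 hn).2, hr, hA1.1]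
  obtain ⟨hGi, hGm⟩ := gs_avg (Hf_cont e (C' ^ 2 / L) hPc hRc) (Hf_bd e (C' ^ 2 / L) hPb hRb)
    (by positivity) hmean
  have hlow := sum_low U (fun u => bt U a u * ‖dp r N (u - a : ℝ)‖ ^ 2) (fun u => u - a) hw
    (fun u => (1 + 2 * η) * T ≤ u ∧ u ≤ (2 - 2 * η) * T) ht
    (fun u _ h => ⟨by nlinarith [h.1], by nlinarith [h.2]⟩)
  refine hlow.trans ?_
  rw [← intervalIntegral.integral_const_mul]
  have hfin : ∫ t in ((1 + η) * T)..((2 - η) * T), 3 * Q t ≤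
      ∫ t in ((1 + η) * T)..((2 - η) * T), C' * (G t + C') :=
    intervalIntegral.integral_mono_on ht (Continuous.intervalIntegrable (by fun_prop) _ _)
      ((hGi.add intervalIntegrable_const).const_mul _) hpt
  refine hfin.trans ?_
  rw [intervalIntegral.integral_const_mul, intervalIntegral.integral_add hGi
    intervalIntegrable_const, intervalIntegral.integral_const, smul_eq_mul, mul_assoc]
  refine mul_le_mul_of_nonneg_left ?_ (by linarith)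
  have h1 : ((2 - η) * T - (1 + η) * T) * C' ≤ T * C' :=
    mul_le_mul_of_nonneg_right (by nlinarith) (by linarith)
  nlinarith

end Pool.Agent.MP_ca0a54_nt.H83
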