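import Pool.Agent.MP_ca0a54_nt.H24.Spec

/-! Row PQ, part a: Gaussian averages and elementary facts on Dirichlet polynomials. -/

open Complex MeasureTheory Filter Topology

namespace Pool.Agent.MP_ca0a54_nt.H83

open Pool.Agent.MP_ca0a54_nt.L0 Pool.Agent.MP_ca0a54_nt.H24

theorem gauss_int : Integrable fun x : ℝ => Real.exp (-x ^ 2) := by
  have := integrable_exp_neg_mul_sq (b := 1) one_pos
  simpa using this

theorem gauss_val : ∫ x : ℝ, Real.exp (-x ^ 2) ≤ 2 := by
  have h := integral_gaussian 1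
  simp only [neg_mul, one_mul, div_one] at h
  rw [h, Real.sqrt_le_iff]
  constructor
  · norm_num
  · linarith [Real.pi_le_four]

theorem gs_intR {H : ℝ → ℝ} (hc : Continuous H) {B : ℝ} (hB : ∀ s, |H s| ≤ B) (t : ℝ) :
    Integrable fun x : ℝ => H (t + x) * Real.exp (-x ^ 2) := by
  refine (gauss_int.const_mul B).mono' (by fun_prop) (Eventually.of_forall fun x => ?_)
  rw [Real.norm_eq_abs, abs_mul, abs_of_pos (Real.exp_pos _)]
  exact mul_le_mul_of_nonneg_right (hB _) (Real.exp_pos _).le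

theorem gs_intC {F : ℝ → ℂ} (hc : Continuous F) {B : ℝ} (hB : ∀ s, ‖F s‖ ≤ B) (t : ℝ) :
    Integrable fun x : ℝ => F (t + x) * ((Real.exp (-x ^ 2) : ℝ) : ℂ) := by
  refine (gauss_int.const_mul B).mono' (by fun_prop) (Eventually.of_forall fun x => ?_)
  rw [norm_mul, Complex.norm_real, Real.norm_eq_abs, abs_of_pos (Real.exp_pos _)]
  exact mul_le_mul_of_nonneg_right (hB _) (Real.exp_pos _).le

/-- The mean of a Gaussian average. -/
theorem gs_avg {H : ℝ → ℝ} (hc : Continuous H) {B : ℝ} (hB : ∀ s, |H s| ≤ B) {t₁ t₂ m : ℝ}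
    (hm : 0 ≤ m) (h : ∀ x : ℝ, ∫ s in (t₁ + x)..(t₂ + x), H s ≤ m) :
    IntervalIntegrable (fun t => ∫ x : ℝ, H (t + x) * Real.exp (-x ^ 2)) volume t₁ t₂ ∧
    ∫ t in t₁..t₂, (∫ x : ℝ, H (t + x) * Real.exp (-x ^ 2)) ≤ 2 * m := by
  have hint : Integrable (Function.uncurry fun t x : ℝ => H (t + x) * Real.exp (-x ^ 2))
      ((volume.restrict (Set.uIoc t₁ t₂)).prod volume) := by
    have : IsFiniteMeasure (volume.restrict (Set.uIoc t₁ t₂)) := by
      refine ⟨?_⟩
      rw [Measure.restrict_apply_univ, Set.uIoc]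
      exact measure_Ioc_lt_top
    have h1 : Integrable (fun p : ℝ × ℝ => B * Real.exp (-p.2 ^ 2))
        ((volume.restrict (Set.uIoc t₁ t₂)).prod volume) :=
      (integrable_const B).mul_prod gauss_int
    refine h1.mono' ?_ (Eventually.of_forall fun p => ?_)
    · apply Continuous.aestronglyMeasurable
      unfold Function.uncurry
      fun_prop
    · simp only [Function.uncurry]
      rw [Real.norm_eq_abs, abs_mul, abs_of_pos (Real.exp_pos _)]
      exact mul_le_mul_of_nonneg_right (hB _) (Real.exp_pos _).le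
  refine ⟨?_, ?_⟩
  · rw [intervalIntegrable_iff]
    exact hint.integral_prod_left
  · rw [intervalIntegral_integral_swap hint]
    have h2 : ∀ x : ℝ, (∫ t in t₁..t₂, H (t + x) * Real.exp (-x ^ 2)) ≤ m * Real.exp (-x ^ 2) := by
      intro x
      rw [intervalIntegral.integral_mul_const, intervalIntegral.integral_comp_add_right]
      exact mul_le_mul_of_nonneg_right (h x) (Real.exp_pos _).le
    have h3 : Integrable fun x : ℝ => ∫ t in t₁..t₂, H (t + x) * Real.exp (-x ^ 2) := by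
      have := hint.integral_prod_right
      simp only [Function.uncurry] at this
      simp only [intervalIntegral.intervalIntegral_eq_integral_uIoc]
      exact this.smul (if t₁ ≤ t₂ then (1 : ℝ) else -1)
    calc _ ≤ ∫ x : ℝ, m * Real.exp (-x ^ 2) := integral_mono h3 (gauss_int.const_mul m) h2
      _ = m * ∫ x : ℝ, Real.exp (-x ^ 2) := integral_const_mul _ _
      _ ≤ m * 2 := mul_le_mul_of_nonneg_left gauss_val hm
      _ = 2 * m := mul_comm _ _

theorem ds_cont (c : ℕ → ℂ) (S : Finset ℕ) : Continuous fun s : ℝ => ds c S s := by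
  unfold ds np
  fun_prop

theorem ds_bd (c : ℕ → ℂ) (S : Finset ℕ) (s : ℝ) : ‖ds c S s‖ ≤ ∑ n ∈ S, ‖c n‖ := by
  unfold ds np
  refine (norm_sum_le _ _).trans (Finset.sum_le_sum fun n _ => ?_)
  rw [norm_mul, Complex.norm_exp]
  refine mul_le_of_le_one_right (norm_nonneg _) ?_
  rw [Real.exp_le_one_iff]
  have : 0 ≤ Real.log n := Real.log_natCast_nonneg n
  have h : (-(1 / 2 + I * (s : ℂ)) * (Real.log n : ℂ)).re = -(1 / 2) * Real.log n := by
    simp [-Complex.natCast_log]
  rw [h]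
  linarith

theorem cv_smul (z : ℂ) (f g : ℕ → ℂ) : cv (fun n => z * f n) g = fun n => z * cv f g n := by
  funext n
  simp only [cv, LSeries.convolution_def, Finset.mul_sum, mul_assoc]

theorem dp_smul (z : ℂ) (f : ℕ → ℂ) (N : ℕ) (w : ℂ) : dp (fun n => z * f n) N w = z * dp f N w := by
  simp only [dp, ds, Finset.mul_sum, mul_assoc]

theorem cv_cut (f g : ℕ → ℂ) {N n : ℕ} (hn : n ≤ N) : cv f (cut g N) n = cv f g n := by
  simp only [cv, LSeries.convolution_def]
  refine Finset.sum_congr rfl fun p hp => ?_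
  have h1 := Nat.snd_mem_divisors_of_mem_antidiagonal hp
  have h2 : p.2 ≤ n := Nat.divisor_le h1
  rw [cut, if_pos (h2.trans hn)]

/-- A Gaussian centred inside the interval has mass at least `1 / 3` there. -/
theorem gauss_low {t₁ t₂ v : ℝ} (h1 : t₁ ≤ v) (h2 : v + 1 ≤ t₂) :
    1 / 3 ≤ ∫ t in t₁..t₂, Real.exp (-(v - t) ^ 2) := by
  have hc : Continuous fun t : ℝ => Real.exp (-(v - t) ^ 2) := by fun_prop
  have h3 : ∫ t in v..(v + 1), Real.exp (-(v - t) ^ 2) ≤ ∫ t in t₁..t₂, Real.exp (-(v - t) ^ 2) :=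
    intervalIntegral.integral_mono_interval h1 (by linarith) h2
      (Eventually.of_forall fun t => (Real.exp_pos _).le) (hc.intervalIntegrable _ _)
  have h4 : ∫ t in v..(v + 1), (1 / 3 : ℝ) ≤ ∫ t in v..(v + 1), Real.exp (-(v - t) ^ 2) := by
    refine intervalIntegral.integral_mono_on (by linarith) (by simp) (hc.intervalIntegrable _ _) ?_
    intro t ht
    have h5 : -1 ≤ -(v - t) ^ 2 := by nlinarith [ht.1, ht.2]
    have h6 : Real.exp (-1) ≤ Real.exp (-(v - t) ^ 2) := Real.exp_le_exp.2 h5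
    have h7 : 1 / 3 ≤ Real.exp (-1) := by
      rw [Real.exp_neg, one_div]
      exact inv_anti₀ (Real.exp_pos _) (by linarith [Real.exp_one_lt_d9])
    linarith
  simp only [intervalIntegral.integral_const, add_sub_cancel_left, smul_eq_mul, one_mul] at h4
  linarith

theorem sum_low (U : Finset ℝ) (w v : ℝ → ℝ) (hw : ∀ u ∈ U, 0 ≤ w u) (p : ℝ → Prop)
    [DecidablePred p] {t₁ t₂ : ℝ} (ht : t₁ ≤ t₂) (hp : ∀ u ∈ U, p u → t₁ ≤ v u ∧ v u + 1 ≤ t₂) :
    ∑ u ∈ U.filter p, w u ≤ 3 * ∫ t in t₁..t₂, ∑ u ∈ U, w u * Real.exp (-(v u - t) ^ 2) := by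
  rw [intervalIntegral.integral_finsetSum fun u _ => Continuous.intervalIntegrable (by fun_prop) _ _,
    Finset.mul_sum, Finset.sum_filter]
  refine Finset.sum_le_sum fun u hu => ?_
  rw [intervalIntegral.integral_const_mul]
  split_ifs with h
  · have := gauss_low (hp u hu h).1 (hp u hu h).2
    nlinarith [hw u hu]
  · have : 0 ≤ ∫ t in t₁..t₂, Real.exp (-(v u - t) ^ 2) :=
      intervalIntegral.integral_nonneg ht fun t _ => (Real.exp_pos _).le
    have := hw u hu
    positivity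

end Pool.Agent.MP_ca0a54_nt.H83
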