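import Pool.Agent.MP_ca0a54_nt.H83.PQa

/-! Row PQ, part b: the pointwise bound and the mean value. -/

open Complex MeasureTheory Filter Topology

namespace Pool.Agent.MP_ca0a54_nt.H83

open Pool.Agent.MP_ca0a54_nt.L0 Pool.Agent.MP_ca0a54_nt.H24

/-- The real majorant. -/
noncomputable def Hf (e : ℂ) (κ : ℝ) (P R : ℝ → ℂ) (s : ℝ) : ℝ :=
  -(e * (P s * (starRingEnd ℂ) (R s))).im + κ * ((‖P s‖ ^ 2 + ‖R s‖ ^ 2) / 2)

theorem Hf_cont (e : ℂ) (κ : ℝ) {P R : ℝ → ℂ} (hP : Continuous P) (hR : Continuous R) :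
    Continuous (Hf e κ P R) := by
  unfold Hf
  fun_prop

theorem Hf_bd (e : ℂ) (κ : ℝ) {P R : ℝ → ℂ} {B B' : ℝ} (hP : ∀ s, ‖P s‖ ≤ B)
    (hR : ∀ s, ‖R s‖ ≤ B') (s : ℝ) :
    |Hf e κ P R s| ≤ ‖e‖ * (B * B') + |κ| * ((B ^ 2 + B' ^ 2) / 2) := by
  unfold Hf
  refine (abs_add_le _ _).trans (add_le_add ?_ ?_)
  · rw [abs_neg]
    refine (Complex.abs_im_le_norm _).trans ?_
    rw [norm_mul, norm_mul, Complex.norm_conj]
    exact mul_le_mul_of_nonneg_left (mul_le_mul (hP s) (hR s) (norm_nonneg _)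
      ((norm_nonneg _).trans (hP s))) (norm_nonneg _)
  · rw [abs_mul]
    refine mul_le_mul_of_nonneg_left ?_ (abs_nonneg _)
    rw [abs_of_nonneg (by positivity)]
    have h1 := pow_le_pow_left₀ (norm_nonneg _) (hP s) 2
    have h2 := pow_le_pow_left₀ (norm_nonneg _) (hR s) 2
    linarith

theorem pt_bound {ϑ e : ℂ} {C L Q τ t : ℝ} {P R : ℝ → ℂ} {B B' : ℝ} (hPc : Continuous P)
    (hRc : Continuous R) (hP : ∀ s, ‖P s‖ ≤ B) (hR : ∀ s, ‖R s‖ ≤ B') (hC : 1 ≤ C) (hL : 0 < L)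
    (h1 : 1 / C ≤ ‖ϑ‖) (h2 : ‖ϑ‖ ≤ C) (h3 : ‖ϑ - ‖ϑ‖ * e‖ ≤ C / L) (hQ : 0 ≤ Q) (hτ : 0 ≤ τ)
    (h : |-Q - (∫ x : ℝ, ϑ * P (t + x) * (starRingEnd ℂ) (R (t + x)) *
      ((Real.exp (-x ^ 2) : ℝ) : ℂ)).im| ≤ τ) :
    Q ≤ C * ((∫ x : ℝ, Hf e (C ^ 2 / L) P R (t + x) * Real.exp (-x ^ 2)) + C * τ) := by
  have hC0 : 0 < C := by linarith
  have hϑ : 0 < ‖ϑ‖ := lt_of_lt_of_le (by positivity) h1
  have hϑC : 1 ≤ ‖ϑ‖ * C := by rwa [div_le_iff₀ hC0] at h1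
  have hi1 : Integrable fun x : ℝ => ϑ * P (t + x) * (starRingEnd ℂ) (R (t + x)) *
      ((Real.exp (-x ^ 2) : ℝ) : ℂ) := by
    refine gs_intC (F := fun s => ϑ * P s * (starRingEnd ℂ) (R s)) (by fun_prop)
      (B := ‖ϑ‖ * B * B') (fun s => ?_) t
    rw [norm_mul, norm_mul, Complex.norm_conj]
    exact mul_le_mul (mul_le_mul_of_nonneg_left (hP s) (norm_nonneg _)) (hR s) (norm_nonneg _)
      (mul_nonneg (norm_nonneg _) ((norm_nonneg _).trans (hP s)))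
  have hi2 := gs_intR (Hf_cont e (C ^ 2 / L) hPc hRc) (Hf_bd e (C ^ 2 / L) hP hR) t
  set G := ∫ x : ℝ, Hf e (C ^ 2 / L) P R (t + x) * Real.exp (-x ^ 2) with hG
  have key : -(∫ x : ℝ, ϑ * P (t + x) * (starRingEnd ℂ) (R (t + x)) *
      ((Real.exp (-x ^ 2) : ℝ) : ℂ)).im ≤ ‖ϑ‖ * G := by
    have e1 := integral_im hi1
    simp only [RCLike.im_to_complex] at e1
    rw [← e1, ← integral_neg, hG, ← integral_const_mul]
    refine integral_mono hi1.im.neg (hi2.const_mul _) fun x => ?_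
    set f := P (t + x) * (starRingEnd ℂ) (R (t + x)) with hf
    have hw := Real.exp_pos (-x ^ 2)
    have e2 : (ϑ * P (t + x) * (starRingEnd ℂ) (R (t + x)) * ((Real.exp (-x ^ 2) : ℝ) : ℂ)).im =
        (ϑ * f).im * Real.exp (-x ^ 2) := by
      rw [Complex.im_mul_ofReal, hf, mul_assoc]
    have e3 : (ϑ * f).im = ‖ϑ‖ * (e * f).im + ((ϑ - ‖ϑ‖ * e) * f).im := by
      rw [← Complex.im_ofReal_mul, ← Complex.add_im]
      congr 1
      ring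
    have e4 : |((ϑ - ‖ϑ‖ * e) * f).im| ≤ C / L * ‖f‖ := by
      refine (Complex.abs_im_le_norm _).trans ?_
      rw [norm_mul]
      exact mul_le_mul_of_nonneg_right h3 (norm_nonneg _)
    have e5 : ‖f‖ ≤ (‖P (t + x)‖ ^ 2 + ‖R (t + x)‖ ^ 2) / 2 := by
      rw [hf, norm_mul, Complex.norm_conj]
      nlinarith [sq_nonneg (‖P (t + x)‖ - ‖R (t + x)‖)]
    have e6 : C / L * ‖f‖ ≤ ‖ϑ‖ * (C ^ 2 / L * ((‖P (t + x)‖ ^ 2 + ‖R (t + x)‖ ^ 2) / 2)) := by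
      have : C / L ≤ ‖ϑ‖ * (C ^ 2 / L) := by
        have : ‖ϑ‖ * (C ^ 2 / L) = ‖ϑ‖ * C * (C / L) := by ring
        rw [this]
        exact le_mul_of_one_le_left (by positivity) hϑC
      calc C / L * ‖f‖ ≤ ‖ϑ‖ * (C ^ 2 / L) * ((‖P (t + x)‖ ^ 2 + ‖R (t + x)‖ ^ 2) / 2) :=
            mul_le_mul this e5 (norm_nonneg _) (by positivity)
        _ = _ := by ring
    show -(ϑ * P (t + x) * (starRingEnd ℂ) (R (t + x)) * ((Real.exp (-x ^ 2) : ℝ) : ℂ)).im ≤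
      ‖ϑ‖ * (Hf e (C ^ 2 / L) P R (t + x) * Real.exp (-x ^ 2))
    rw [e2, ← neg_mul, ← mul_assoc ‖ϑ‖]
    refine mul_le_mul_of_nonneg_right ?_ hw.le
    rw [e3, Hf, ← hf, mul_add]
    have := (abs_le.1 e4).1
    linarith
  have h4 : Q ≤ ‖ϑ‖ * (G + C * τ) := by
    have := (abs_le.1 h).1
    have h5 : τ ≤ ‖ϑ‖ * C * τ := le_mul_of_one_le_left hτ hϑC
    nlinarith
  have h5 : 0 ≤ G + C * τ := by
    by_contra hn
    push Not at hn
    nlinarith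
  exact h4.trans (mul_le_mul_of_nonneg_right h2 h5)

theorem int_sq {P : ℝ → ℂ} (hP : Continuous P) (s₁ s₂ : ℝ) :
    ∫ s in s₁..s₂, ‖P s‖ ^ 2 = (∫ s in s₁..s₂, P s * (starRingEnd ℂ) (P s)).re := by
  have := (Complex.reCLM.intervalIntegral_comp_comm (f := fun s => P s * (starRingEnd ℂ) (P s))
    (μ := volume) (a := s₁) (b := s₂) (Continuous.intervalIntegrable (by fun_prop) _ _))
  simp only [Complex.reCLM_apply] at this
  rw [← this]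
  refine intervalIntegral.integral_congr fun s _ => ?_
  simp only [Complex.mul_conj, Complex.ofReal_re, Complex.normSq_eq_norm_sq]

theorem Hf_mean {e : ℂ} {κ : ℝ} {P R : ℝ → ℂ} (hP : Continuous P) (hR : Continuous R)
    {s₁ s₂ E CS m T : ℝ} {S₁ S₂ S₃ : ℂ} (he : ‖e‖ ≤ 1) (hκ : 0 ≤ κ) (hs : s₁ ≤ s₂)
    (hT : s₂ - s₁ ≤ T) (hCS : 0 ≤ CS) (hm : 0 ≤ m)
    (h1 : ‖(∫ s in s₁..s₂, P s * (starRingEnd ℂ) (R s)) - ((s₂ - s₁ : ℝ) : ℂ) * S₁‖ ≤ E)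
    (h2 : ‖(∫ s in s₁..s₂, P s * (starRingEnd ℂ) (P s)) - ((s₂ - s₁ : ℝ) : ℂ) * S₂‖ ≤ E)
    (h3 : ‖(∫ s in s₁..s₂, R s * (starRingEnd ℂ) (R s)) - ((s₂ - s₁ : ℝ) : ℂ) * S₃‖ ≤ E)
    (g1 : -(e * S₁).im ≤ CS) (g2 : S₂.re ≤ m) (g3 : S₃.re ≤ m) :
    ∫ s in s₁..s₂, Hf e κ P R s ≤ T * CS + E + κ * (T * m + E) := by
  have i1 : IntervalIntegrable (fun s => -(e * (P s * (starRingEnd ℂ) (R s))).im) volume s₁ s₂ :=
    Continuous.intervalIntegrable (by fun_prop) _ _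
  have i2 : IntervalIntegrable (fun s => ‖P s‖ ^ 2) volume s₁ s₂ :=
    Continuous.intervalIntegrable (by fun_prop) _ _
  have i3 : IntervalIntegrable (fun s => ‖R s‖ ^ 2) volume s₁ s₂ :=
    Continuous.intervalIntegrable (by fun_prop) _ _
  have e1 := (Complex.imCLM.intervalIntegral_comp_comm
    (f := fun s => e * (P s * (starRingEnd ℂ) (R s)))
    (μ := volume) (a := s₁) (b := s₂) (Continuous.intervalIntegrable (by fun_prop) _ _))
  simp only [Complex.imCLM_apply] at e1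
  unfold Hf
  rw [intervalIntegral.integral_add i1 (((i2.add i3).div_const 2).const_mul κ),
    intervalIntegral.integral_neg, e1, intervalIntegral.integral_const_mul,
    intervalIntegral.integral_const_mul, intervalIntegral.integral_div,
    intervalIntegral.integral_add i2 i3, int_sq hP, int_sq hR]
  have hl : 0 ≤ s₂ - s₁ := by linarith
  set I₁ := ∫ s in s₁..s₂, P s * (starRingEnd ℂ) (R s)
  set I₂ := ∫ s in s₁..s₂, P s * (starRingEnd ℂ) (P s)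
  set I₃ := ∫ s in s₁..s₂, R s * (starRingEnd ℂ) (R s)
  have a1 : -(e * I₁).im ≤ T * CS + E := by
    have b1 : (e * I₁).im = (s₂ - s₁) * (e * S₁).im + (e * (I₁ - ((s₂ - s₁ : ℝ) : ℂ) * S₁)).im := by
      rw [← Complex.im_ofReal_mul, ← Complex.add_im]
      congr 1
      ring
    have b2 : |(e * (I₁ - ((s₂ - s₁ : ℝ) : ℂ) * S₁)).im| ≤ E := by
      refine (Complex.abs_im_le_norm _).trans ?_
      rw [norm_mul]
      exact (mul_le_of_le_one_left (norm_nonneg _) he).trans h1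
    have b3 := (abs_le.1 b2).1
    have b4 : (s₂ - s₁) * -(e * S₁).im ≤ (s₂ - s₁) * CS := mul_le_mul_of_nonneg_left g1 hl
    have b5 : (s₂ - s₁) * CS ≤ T * CS := mul_le_mul_of_nonneg_right hT hCS
    linarith
  have a2 : ∀ (J S : ℂ), ‖J - ((s₂ - s₁ : ℝ) : ℂ) * S‖ ≤ E → S.re ≤ m → J.re ≤ T * m + E := by
    intro J S hJ hS
    have b1 := (abs_le.1 ((Complex.abs_re_le_norm _).trans hJ)).2
    rw [Complex.sub_re, Complex.re_ofReal_mul] at b1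
    have b4 : (s₂ - s₁) * S.re ≤ (s₂ - s₁) * m := mul_le_mul_of_nonneg_left hS hl
    have b5 : (s₂ - s₁) * m ≤ T * m := mul_le_mul_of_nonneg_right hT hm
    linarith
  have a3 := a2 _ _ h2 g2
  have a4 := a2 _ _ h3 g3
  have a5 : κ * ((I₂.re + I₃.re) / 2) ≤ κ * (T * m + E) :=
    mul_le_mul_of_nonneg_left (by linarith) hκ
  linarith

theorem sum_sq_re (c : ℕ → ℂ) (S : Finset ℕ) :
    (∑ n ∈ S ∩ S, c n * (starRingEnd ℂ) (c n) / n).re = ∑ n ∈ S, ‖c n‖ ^ 2 / n := by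
  rw [Finset.inter_self, Complex.re_sum]
  refine Finset.sum_congr rfl fun n _ => ?_
  rw [Complex.mul_conj, Complex.normSq_eq_norm_sq]
  norm_cast

/-- The quotient of zeta values is bounded on the line `re s = 1 + ε / 8`. -/
theorem lser_bd {ε : ℝ} (hε : 0 < ε) : ∃ Z : ℝ, 0 ≤ Z ∧ ∀ (b : ℕ → ℂ) (s : ℂ),
    (∀ n : ℕ, ‖b n‖ ≤ Real.exp (ε / 16 * Real.log n)) → s.re = 1 + ε / 8 → ‖LSeries b s‖ ≤ Z := by
  have hs : Summable fun n : ℕ => 1 / (n : ℝ) ^ (1 + ε / 16) :=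
    Real.summable_one_div_nat_rpow.2 (by linarith)
  refine ⟨∑' n : ℕ, 1 / (n : ℝ) ^ (1 + ε / 16), tsum_nonneg fun n => by positivity, ?_⟩
  intro b s hb hre
  refine tsum_of_norm_bounded hs.hasSum fun n => ?_
  rw [LSeries.norm_term_eq]
  split_ifs with hn
  · positivity
  · have hn0 : (0 : ℝ) < n := by exact_mod_cast Nat.pos_of_ne_zero hn
    rw [hre, div_le_div_iff₀ (by positivity) (by positivity), one_mul]
    calc ‖b n‖ * (n : ℝ) ^ (1 + ε / 16) ≤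
        Real.exp (ε / 16 * Real.log n) * (n : ℝ) ^ (1 + ε / 16) :=
          mul_le_mul_of_nonneg_right (hb n) (by positivity)
      _ = (n : ℝ) ^ (1 + ε / 8) := by
        rw [Real.rpow_def_of_pos hn0, Real.rpow_def_of_pos hn0, ← Real.exp_add]
        congr 1
        ring

end Pool.Agent.MP_ca0a54_nt.H83
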